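import Pool.Agent.ATZ.Stmts1

/-! Squad ATZ, row LNZ: the bound for the number of modular characters. -/

open scoped BigOperators

noncomputable section

namespace Pool.Agent.PP.TB.H13

open Pool.Agent.Helper51_AWC Pool.Agent.Helper79_WRA Pool.Agent.PP Pool.Agent.PP.KF
open Pool.Agent.PP.K9 Pool.Agent.PP.K9.H97 Pool.Agent.PP.H75 Pool.Agent.PP.T3 Pool.Agent.PP.T2
open Pool.Agent.PP.T5 Pool.Agent.PP.TB

attribute [local instance] Ideal.Quotient.field

theorem lnz (hB : BfzStmt) (hP : T5.Pr5Stmt) (hF : T5.Fx5Stmt) : LnzStmt := by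
  intro ℓ _ M _ hM G _ _ e V Z γ b hZ hS k hk
  obtain ⟨N, hN⟩ := hP ℓ G
  exact le_trans (Nat.mul_le_mul_right _ (hF ℓ M hM G N hN e hZ.blk.1))
    (hB ℓ M hM G e V Z γ b hZ hS N hN k hk)

end Pool.Agent.PP.TB.H13
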